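import Mathlib

/-!
# Online coloring of intervals with lengths in `[1, σ]`
-/

namespace Pool.Agent.Sig

open scoped ENNReal

/-- `I` is an instance of `σ`-interval coloring: a finite sequence of closed intervals `[l, r]`, each given
by its pair of endpoints `(l, r)`, with `1 ≤ r - l ≤ σ`. -/
def IsInstance (σ : ℝ) (I : List (ℝ × ℝ)) : Prop :=
  ∀ p ∈ I, 1 ≤ p.2 - p.1 ∧ p.2 - p.1 ≤ σ

/-- The intersection graph of the sequence `I` of closed intervals. -/
def interGraph (I : List (ℝ × ℝ)) : SimpleGraph (Fin I.length) where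
  Adj i j := i ≠ j ∧ (Set.Icc (I.get i).1 (I.get i).2 ∩ Set.Icc (I.get j).1 (I.get j).2).Nonempty
  symm := ⟨fun i j h => ⟨h.1.symm, by rw [Set.inter_comm]; exact h.2⟩⟩
  loopless := ⟨fun i h => h.1 rfl⟩

/-- A deterministic online algorithm is a function `A` that computes from the list of the intervals
revealed so far (the last one is the current interval) the colour of the current interval.
`colour A I i` is the colour that the `i`-th interval of the instance `I` receives. -/
def colour (A : List (ℝ × ℝ) → ℕ) (I : List (ℝ × ℝ)) (i : Fin I.length) : ℕ :=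
  A (I.take (i + 1))

/-- `A` is an online algorithm for `σ`-interval coloring: on every instance intersecting intervals get
different colours. -/
def IsOnline (σ : ℝ) (A : List (ℝ × ℝ) → ℕ) : Prop :=
  ∀ I, IsInstance σ I → ∀ i j, (interGraph I).Adj i j → colour A I i ≠ colour A I j

/-- The number of distinct colours that `A` uses on `I`. -/
def cost (A : List (ℝ × ℝ) → ℕ) (I : List (ℝ × ℝ)) : ℕ :=
  (Finset.univ.image (colour A I)).card

/-- `A(χ)`: the supremum of the number of colours used by `A` over all instances whose intersection graph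
has chromatic number at most `χ`. -/
noncomputable def worst (σ : ℝ) (A : List (ℝ × ℝ) → ℕ) (χ : ℕ) : ℕ∞ :=
  ⨆ (I : List (ℝ × ℝ)) (_ : IsInstance σ I ∧ (interGraph I).chromaticNumber ≤ χ), (cost A I : ℕ∞)

/-- `A` is `α`-competitive: `limsup A(χ) / χ ≤ α` for `χ → ∞`. -/
def IsCompetitive (σ : ℝ) (A : List (ℝ × ℝ) → ℕ) (α : ℝ≥0∞) : Prop :=
  Filter.limsup (fun χ : ℕ => (worst σ A χ : ℝ≥0∞) / χ) Filter.atTop ≤ α

end Pool.Agent.Sig
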