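import Pool.Agent.Sig.Lump
import Pool.Agent.Sig.Defs

/-!
# The online algorithm

The class of an interval is the set of its integer points `[⌈l⌉, ⌊r⌋]`. The intervals of one class are
grouped into pairs in the order of arrival; a pair is a `Lump`, its first interval gets the first colour
of the lump, its second one the second colour. The state is the set `U` of the pairs (lump, half) used so
far.
-/

namespace Pool.Agent.Sig

open Classical in
/-- The lumps in use. -/
noncomputable def lumps (U : Finset (Lump × Bool)) : Finset Lump := U.image Prod.fst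

theorem mem_lumps {U : Finset (Lump × Bool)} {x : Lump} : x ∈ lumps U ↔ ∃ s, (x, s) ∈ U := by
  classical
  unfold lumps
  rw [Finset.mem_image]
  constructor
  · rintro ⟨⟨y, s⟩, h, rfl⟩
    exact ⟨s, h⟩
  · rintro ⟨s, h⟩
    exact ⟨(x, s), h, rfl⟩

/-- The invariants of the state. -/
structure Inv (U : Finset (Lump × Bool)) : Prop where
  good : Good (lumps U)
  fst : ∀ x, (x, true) ∈ U → (x, false) ∈ U
  half : ∀ x y, (x, false) ∈ U → (x, true) ∉ U → (y, false) ∈ U → (y, true) ∉ U →
    x.lo = y.lo → x.hi = y.hi → x = y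

theorem inv_empty : Inv ∅ := by
  classical
  refine ⟨?_, ?_, ?_⟩
  · have : lumps ∅ = ∅ := by
      unfold lumps
      exact Finset.image_empty _
    rw [this]
    exact good_empty
  · intro x hx
    exact absurd hx (Finset.notMem_empty _)
  · intro x y hx
    exact absurd hx (Finset.notMem_empty _)

theorem Inv.mem_lumps_iff {U : Finset (Lump × Bool)} (h : Inv U) {x : Lump} :
    x ∈ lumps U ↔ (x, false) ∈ U := by
  rw [mem_lumps]
  constructor
  · rintro ⟨s, hs⟩
    cases s
    · exact hs
    · exact h.fst x hs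
  · intro hx
    exact ⟨_, hx⟩

/-- What the algorithm chooses. -/
def Next (U : Finset (Lump × Bool)) (lo hi : ℤ) (a : Lump × Bool) : Prop :=
  a ∉ U ∧ a.1.lo = lo ∧ a.1.hi = hi ∧ ∀ V : Finset (Lump × Bool), (∀ c, c ∈ V ↔ c = a ∨ c ∈ U) → Inv V

theorem exists_next {U : Finset (Lump × Bool)} (hU : Inv U) {lo hi : ℤ} (h : lo ≤ hi) :
    ∃ a, Next U lo hi a := by
  classical
  by_cases hex : ∃ x : Lump, (x, false) ∈ U ∧ (x, true) ∉ U ∧ x.lo = lo ∧ x.hi = hi
  · obtain ⟨x, hx0, hx1, hlo, hhi⟩ := hex
    refine ⟨(x, true), hx1, hlo, hhi, fun V hV => ?_⟩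
    have hl : lumps V = lumps U := by
      ext z
      rw [mem_lumps, mem_lumps]
      constructor
      · rintro ⟨s, hs⟩
        rcases (hV _).mp hs with h1 | h1
        · rw [Prod.mk.injEq] at h1
          rw [h1.1]
          exact ⟨_, hx0⟩
        · exact ⟨s, h1⟩
      · rintro ⟨s, hs⟩
        exact ⟨s, (hV _).mpr (Or.inr hs)⟩
    refine ⟨by rw [hl]; exact hU.good, fun z hz => ?_, fun z w hz0 hz1 hw0 hw1 hlo' hhi' => ?_⟩
    · rcases (hV _).mp hz with h1 | h1
      · rw [Prod.mk.injEq] at h1
        rw [h1.1]
        exact (hV _).mpr (Or.inr hx0)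
      · exact (hV _).mpr (Or.inr (hU.fst z h1))
    · have hzU : (z, false) ∈ U := by
        rcases (hV _).mp hz0 with h1 | h1
        · simp at h1
        · exact h1
      have hwU : (w, false) ∈ U := by
        rcases (hV _).mp hw0 with h1 | h1
        · simp at h1
        · exact h1
      exact hU.half z w hzU (fun h1 => hz1 ((hV _).mpr (Or.inr h1))) hwU
        (fun h1 => hw1 ((hV _).mpr (Or.inr h1))) hlo' hhi'
  · push Not at hex
    obtain ⟨y, hylo, hyhi, hyS, hyT⟩ := exists_step hU.good h
    have hyU : ∀ s, (y, s) ∉ U := fun s hs => hyS (mem_lumps.mpr ⟨s, hs⟩)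
    refine ⟨(y, false), hyU false, hylo, hyhi, fun V hV => ?_⟩
    refine ⟨hyT _ fun z => ?_, fun z hz => ?_, fun z w hz0 hz1 hw0 hw1 hlo' hhi' => ?_⟩
    · rw [mem_lumps, mem_lumps]
      constructor
      · rintro ⟨s, hs⟩
        rcases (hV _).mp hs with h1 | h1
        · rw [Prod.mk.injEq] at h1
          exact Or.inl h1.1
        · exact Or.inr ⟨s, h1⟩
      · rintro (rfl | ⟨s, hs⟩)
        · exact ⟨false, (hV _).mpr (Or.inl rfl)⟩
        · exact ⟨s, (hV _).mpr (Or.inr hs)⟩
    · rcases (hV _).mp hz with h1 | h1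
      · simp at h1
      · exact (hV _).mpr (Or.inr (hU.fst z h1))
    · have key : ∀ z : Lump, (z, false) ∈ V → (z, true) ∉ V → z.lo = lo → z.hi = hi → z = y := by
        intro z hz0 hz1 hlo' hhi'
        rcases (hV _).mp hz0 with h1 | h1
        · rw [Prod.mk.injEq] at h1
          exact h1.1
        · exact absurd hhi' (hex z h1 (fun h2 => hz1 ((hV _).mpr (Or.inr h2))) hlo')
      rcases (hV _).mp hz0 with h1 | h1
      · rw [Prod.mk.injEq] at h1
        have hz : z = y := h1.1
        rw [hz]
        refine (key w hw0 hw1 ?_ ?_).symm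
        · rw [← hlo', hz, hylo]
        · rw [← hhi', hz, hyhi]
      · rcases (hV _).mp hw0 with h2 | h2
        · rw [Prod.mk.injEq] at h2
          have hw : w = y := h2.1
          rw [hw]
          refine key z hz0 hz1 ?_ ?_
          · rw [hlo', hw, hylo]
          · rw [hhi', hw, hyhi]
        · exact hU.half z w h1 (fun h3 => hz1 ((hV _).mpr (Or.inr h3))) h2
            (fun h3 => hw1 ((hV _).mpr (Or.inr h3))) hlo' hhi'

open Classical in
/-- The choice of the algorithm. -/
noncomputable def next (U : Finset (Lump × Bool)) (p : ℝ × ℝ) : Lump × Bool :=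
  if h : ∃ a, Next U ⌈p.1⌉ ⌊p.2⌋ a then h.choose else (⟨0, 0, 0, 0, 0, 0⟩, false)

theorem next_spec {U : Finset (Lump × Bool)} (hU : Inv U) {p : ℝ × ℝ} (hp : 1 ≤ p.2 - p.1) :
    Next U ⌈p.1⌉ ⌊p.2⌋ (next U p) := by
  have h1 : ⌈p.1⌉ ≤ ⌊p.2⌋ := by
    rw [Int.le_floor]
    have := Int.ceil_lt_add_one p.1
    linarith
  have h2 := exists_next hU h1
  unfold next
  rw [dif_pos h2]
  exact h2.choose_spec

open Classical in
/-- The state after the intervals of `I`. -/
noncomputable def st (I : List (ℝ × ℝ)) : Finset (Lump × Bool) :=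
  I.foldl (fun U p => insert (next U p) U) ∅

open Classical in
theorem st_append (I : List (ℝ × ℝ)) (p : ℝ × ℝ) : st (I ++ [p]) = insert (next (st I) p) (st I) := by
  unfold st
  rw [List.foldl_append]
  rfl

theorem inv_st {σ : ℝ} {I : List (ℝ × ℝ)} (hI : IsInstance σ I) : Inv (st I) := by
  classical
  induction I using List.reverseRecOn with
  | nil => exact inv_empty
  | append_singleton I p ih =>
    have h1 : IsInstance σ I := fun q hq => hI q (List.mem_append_left _ hq)
    have h2 := hI p (List.mem_append_right _ (List.mem_singleton.mpr rfl))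
    rw [st_append]
    refine (next_spec (ih h1) h2.1).2.2.2 _ fun c => ?_
    rw [Finset.mem_insert]

/-- The colour that belongs to a half of a lump. -/
def colr (a : Lump × Bool) : ℕ := 5 * a.1.lev + (if a.2 then a.1.c1 else a.1.c0).val

/-- **The algorithm.** -/
noncomputable def algo (J : List (ℝ × ℝ)) : ℕ :=
  colr (next (st J.dropLast) (J.getLast?.getD (0, 0)))

section run

variable (I : List (ℝ × ℝ))

/-- The half lump assigned to the `i`-th interval. -/
noncomputable def asg (i : Fin I.length) : Lump × Bool := next (st (I.take i)) (I.get i)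

theorem take_succ_get (i : Fin I.length) : I.take (i + 1) = I.take i ++ [I.get i] := by
  rw [List.take_succ_eq_append_getElem i.2]
  rfl

theorem colour_algo (i : Fin I.length) : colour algo I i = colr (asg I i) := by
  unfold colour algo asg
  rw [take_succ_get, List.dropLast_concat, List.getLast?_concat]
  rfl

open Classical in
theorem st_succ (i : Fin I.length) : st (I.take (i + 1)) = insert (asg I i) (st (I.take i)) := by
  rw [take_succ_get, st_append]
  rfl

variable {I}

theorem isInstance_take {σ : ℝ} (hI : IsInstance σ I) (n : ℕ) : IsInstance σ (I.take n) :=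
  fun p hp => hI p (List.mem_of_mem_take hp)

theorem asg_spec {σ : ℝ} (hI : IsInstance σ I) (i : Fin I.length) :
    asg I i ∉ st (I.take i) ∧ (asg I i).1.lo = ⌈(I.get i).1⌉ ∧ (asg I i).1.hi = ⌊(I.get i).2⌋ := by
  have h1 := next_spec (inv_st (isInstance_take hI i)) (hI _ (List.get_mem I i)).1
  exact ⟨h1.1, h1.2.1, h1.2.2.1⟩

theorem st_mono {m n : ℕ} (hmn : m ≤ n) : st (I.take m) ⊆ st (I.take n) := by
  classical
  induction hmn with
  | refl => exact Finset.Subset.refl _
  | @step n _ ih =>
    by_cases hn : n < I.length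
    · refine ih.trans ?_
      have := st_succ I ⟨n, hn⟩
      simp only at this
      rw [Nat.succ_eq_add_one, this]
      exact Finset.subset_insert _ _
    · rw [not_lt] at hn
      have e1 : I.take (n + 1) = I := List.take_of_length_le (hn.trans (Nat.le_succ n))
      have e2 : I.take n = I := List.take_of_length_le hn
      rw [Nat.succ_eq_add_one, e1]
      rw [e2] at ih
      exact ih

theorem asg_mem (i : Fin I.length) {n : ℕ} (hn : (i : ℕ) < n) : asg I i ∈ st (I.take n) := by
  classical
  apply st_mono hn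
  rw [Nat.succ_eq_add_one, st_succ]
  exact Finset.mem_insert_self _ _

theorem asg_mem_st (i : Fin I.length) : asg I i ∈ st I := by
  have := asg_mem i (n := I.length) i.2
  rwa [List.take_length] at this

theorem asg_inj {σ : ℝ} (hI : IsInstance σ I) : Function.Injective (asg I) := by
  have key : ∀ i j : Fin I.length, (i : ℕ) < j → asg I i ≠ asg I j := by
    intro i j hij h
    apply (asg_spec hI j).1
    rw [← h]
    exact asg_mem i hij
  intro i j h
  rcases lt_trichotomy (i : ℕ) j with h1 | h1 | h1
  · exact absurd h (key i j h1)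
  · exact Fin.ext h1
  · exact absurd h.symm (key j i h1)

theorem mem_st_take (n : ℕ) (hn : n ≤ I.length) {a : Lump × Bool} (ha : a ∈ st (I.take n)) :
    ∃ i : Fin I.length, asg I i = a := by
  classical
  induction n with
  | zero =>
    rw [List.take_zero] at ha
    exact absurd ha (Finset.notMem_empty a)
  | succ n ih =>
    have h1 := st_succ I ⟨n, hn⟩
    simp only at h1
    rw [h1, Finset.mem_insert] at ha
    rcases ha with ha | ha
    · exact ⟨_, ha.symm⟩
    · exact ih (Nat.le_of_succ_le hn) ha

theorem mem_st {a : Lump × Bool} (ha : a ∈ st I) : ∃ i : Fin I.length, asg I i = a := by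
  refine mem_st_take I.length le_rfl ?_
  rwa [List.take_length]

end run

end Pool.Agent.Sig
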