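import Mathlib

/-!
# Online colouring of integer ranges by pairs of colours

A `Lump` is a nonempty integer range `[lo, hi]` together with a level `lev`, a private point `pt` and a
pair of colours `c0`, `c1` out of five. The level of a new range is the least `b` such that after adding
it every integer of the range lies in at most `b` ranges of level at most `b` (Kierstead and Trotter).
Then each range has an integer that lies in no other range of its level, so in each level only
consecutive ranges touch; consecutive ranges of a level get disjoint pairs if they touch and pairs with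
exactly one common colour if they do not.
-/

namespace Pool.Agent.Sig

/-- An integer range with its level, private point and pair of colours. -/
structure Lump where
  /-- left end -/
  lo : ℤ
  /-- right end -/
  hi : ℤ
  /-- private point -/
  pt : ℤ
  /-- level -/
  lev : ℕ
  /-- first colour -/
  c0 : Fin 5
  /-- second colour -/
  c1 : Fin 5

/-- The integer `g` lies in the range `x`. -/
def Lump.Cov (x : Lump) (g : ℤ) : Prop := x.lo ≤ g ∧ g ≤ x.hi

/-- The ranges meet or are adjacent. -/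
def Touch (x y : Lump) : Prop := x.lo ≤ y.hi + 1 ∧ y.lo ≤ x.hi + 1

theorem Touch.symm {x y : Lump} (h : Touch x y) : Touch y x := ⟨h.2, h.1⟩

/-- The number of common colours of two pairs. -/
def inter (a b c d : Fin 5) : ℕ :=
  (if a = c then 1 else 0) + (if a = d then 1 else 0) + (if b = c then 1 else 0) +
    (if b = d then 1 else 0)

theorem inter_comm (a b c d : Fin 5) : inter a b c d = inter c d a b := by
  unfold inter
  simp only [eq_comm]
  ring

theorem choose_one : ∀ (a b : Fin 5), a ≠ b → ∀ k : Bool,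
    ∃ e f : Fin 5, e ≠ f ∧ inter e f a b = if k then 0 else 1 := by
  decide

theorem choose_two : ∀ (a b c d : Fin 5), a ≠ b → c ≠ d → inter a b c d = 1 → ∀ k l : Bool,
    ∃ e f : Fin 5, e ≠ f ∧ (inter e f a b = if k then 0 else 1) ∧
      (inter e f c d = if l then 0 else 1) := by
  decide

open Classical in
/-- The number of ranges of level at most `b` that contain `g`. -/
noncomputable def cnt (S : Finset Lump) (b : ℕ) (g : ℤ) : ℕ :=
  (S.filter (fun x => x.lev ≤ b ∧ x.Cov g)).card

/-- The invariants. -/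
structure Good (S : Finset Lump) : Prop where
  cov : ∀ x ∈ S, x.Cov x.pt
  ne : ∀ x ∈ S, x.c0 ≠ x.c1
  pos : ∀ x ∈ S, 1 ≤ x.lev
  priv : ∀ x ∈ S, ∀ y ∈ S, x ≠ y → x.lev = y.lev → ¬ y.Cov x.pt
  full : ∀ x ∈ S, x.lev ≤ cnt S x.lev x.pt
  col : ∀ x ∈ S, ∀ y ∈ S, x ≠ y → x.lev = y.lev → Touch x y → inter x.c0 x.c1 y.c0 y.c1 = 0
  one : ∀ x ∈ S, ∀ y ∈ S, x.pt < y.pt → x.lev = y.lev → ¬ Touch x y →
    (∀ z ∈ S, z.lev = x.lev → ¬ (x.pt < z.pt ∧ z.pt < y.pt)) → inter x.c0 x.c1 y.c0 y.c1 = 1

theorem good_empty : Good ∅ := by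
  constructor <;> simp

theorem cnt_mono {S T : Finset Lump} (h : S ⊆ T) {b c : ℕ} (hbc : b ≤ c) (g : ℤ) :
    cnt S b g ≤ cnt T c g := by
  classical
  unfold cnt
  refine Finset.card_le_card fun x hx => ?_
  rw [Finset.mem_filter] at hx ⊢
  exact ⟨h hx.1, hx.2.1.trans hbc, hx.2.2⟩

theorem cnt_le_card (S : Finset Lump) (b : ℕ) (g : ℤ) : cnt S b g ≤ S.card := by
  classical
  exact Finset.card_filter_le _ _

/-- The level and the private point of a new range. -/
theorem exists_level (S : Finset Lump) {lo hi : ℤ} (h : lo ≤ hi) :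
    ∃ (b : ℕ) (g : ℤ), 1 ≤ b ∧ lo ≤ g ∧ g ≤ hi ∧ (∀ t, lo ≤ t → t ≤ hi → cnt S b t + 1 ≤ b) ∧
      b ≤ cnt S b g + 1 ∧ ∀ x ∈ S, x.lev = b → ¬ x.Cov g := by
  classical
  have hex : ∃ b : ℕ, ∀ t, lo ≤ t → t ≤ hi → cnt S b t + 1 ≤ b :=
    ⟨S.card + 1, fun t _ _ => Nat.succ_le_succ (cnt_le_card S _ t)⟩
  set b := Nat.find hex with hb
  have hP : ∀ t, lo ≤ t → t ≤ hi → cnt S b t + 1 ≤ b := Nat.find_spec hex
  have hb1 : 1 ≤ b := (Nat.le_add_left 1 _).trans (hP lo le_rfl h)
  have hlt : b - 1 < b := by omega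
  have hnot := Nat.find_min hex (m := b - 1) (by rw [← hb]; exact hlt)
  push Not at hnot
  obtain ⟨g, hg1, hg2, hg3⟩ := hnot
  have h1 := hP g hg1 hg2
  have h2 : cnt S (b - 1) g ≤ cnt S b g := cnt_mono (Finset.Subset.refl S) (Nat.sub_le b 1) g
  have h3 : b - 1 ≤ cnt S (b - 1) g := by omega
  refine ⟨b, g, hb1, hg1, hg2, hP, by omega, fun x hx hxb hxg => ?_⟩
  have hss : S.filter (fun x => x.lev ≤ b - 1 ∧ x.Cov g) ⊂ S.filter (fun x => x.lev ≤ b ∧ x.Cov g) := by
    rw [Finset.ssubset_iff_of_subset]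
    · refine ⟨x, ?_, ?_⟩
      · rw [Finset.mem_filter]
        exact ⟨hx, hxb.le, hxg⟩
      · rw [Finset.mem_filter]
        rintro ⟨-, h4, -⟩
        omega
    · intro z hz
      rw [Finset.mem_filter] at hz ⊢
      exact ⟨hz.1, hz.2.1.trans (Nat.sub_le b 1), hz.2.2⟩
  have h5 := Finset.card_lt_card hss
  change cnt S (b - 1) g < cnt S b g at h5
  omega

theorem Good.pt_ne {S : Finset Lump} (hS : Good S) {x y : Lump} (hx : x ∈ S) (hy : y ∈ S)
    (hne : x ≠ y) (hl : x.lev = y.lev) : x.pt ≠ y.pt := by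
  intro h
  apply hS.priv x hx y hy hne hl
  rw [h]
  exact hS.cov y hy

/-- **The step.** -/
theorem exists_step {S : Finset Lump} (hS : Good S) {lo hi : ℤ} (h : lo ≤ hi) :
    ∃ y : Lump, y.lo = lo ∧ y.hi = hi ∧ y ∉ S ∧ ∀ T : Finset Lump, (∀ z, z ∈ T ↔ z = y ∨ z ∈ S) →
      Good T := by
  classical
  obtain ⟨b, g, hb1, hg1, hg2, hP, hbg, hfree⟩ := exists_level S h
  -- the points of the lumps of level `b` in `S` are not in `[lo, hi]`
  have hout : ∀ x ∈ S, x.lev = b → ¬ (lo ≤ x.pt ∧ x.pt ≤ hi) := by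
    intro x hx hxb hc
    have h1 := hP x.pt hc.1 hc.2
    have h2 := hS.full x hx
    rw [hxb] at h2
    omega
  have hside : ∀ x ∈ S, x.lev = b → (x.pt < g ∧ x.hi < g ∧ x.pt < lo) ∨
      (g < x.pt ∧ g < x.lo ∧ hi < x.pt) := by
    intro x hx hxb
    have h1 := hfree x hx hxb
    have h2 := hS.cov x hx
    have h3 := hout x hx hxb
    unfold Lump.Cov at h1 h2
    omega
  -- neighbours and colours
  obtain ⟨e, f, hef, hL, hR⟩ : ∃ e f : Fin 5, e ≠ f ∧
      (∀ u ∈ S, u.lev = b → u.pt < g → (∀ z ∈ S, z.lev = b → z.pt < g → z.pt ≤ u.pt) →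
        inter e f u.c0 u.c1 = if u.lo ≤ hi + 1 ∧ lo ≤ u.hi + 1 then 0 else 1) ∧
      (∀ v ∈ S, v.lev = b → g < v.pt → (∀ z ∈ S, z.lev = b → g < z.pt → v.pt ≤ z.pt) →
        inter e f v.c0 v.c1 = if v.lo ≤ hi + 1 ∧ lo ≤ v.hi + 1 then 0 else 1) := by
    -- uniqueness of neighbours
    have huniqL : ∀ u ∈ S, u.lev = b → u.pt < g → (∀ z ∈ S, z.lev = b → z.pt < g → z.pt ≤ u.pt) →
        ∀ u' ∈ S, u'.lev = b → u'.pt < g → (∀ z ∈ S, z.lev = b → z.pt < g → z.pt ≤ u'.pt) →
        u' = u := by
      intro u hu hub hug hum u' hu' hub' hug' hum'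
      by_contra hne
      exact hS.pt_ne hu' hu hne (hub'.trans hub.symm) (le_antisymm (hum u' hu' hub' hug')
        (hum' u hu hub hug))
    have huniqR : ∀ v ∈ S, v.lev = b → g < v.pt → (∀ z ∈ S, z.lev = b → g < z.pt → v.pt ≤ z.pt) →
        ∀ v' ∈ S, v'.lev = b → g < v'.pt → (∀ z ∈ S, z.lev = b → g < z.pt → v'.pt ≤ z.pt) →
        v' = v := by
      intro v hv hvb hvg hvm v' hv' hvb' hvg' hvm'
      by_contra hne
      exact hS.pt_ne hv' hv hne (hvb'.trans hvb.symm) (le_antisymm (hvm' v hv hvb hvg)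
        (hvm v' hv' hvb' hvg'))
    rcases (S.filter (fun x => x.lev = b ∧ x.pt < g)).eq_empty_or_nonempty with hL0 | hL1
    · have hLno : ∀ u ∈ S, u.lev = b → u.pt < g → False := by
        intro u hu hub hug
        have : u ∈ S.filter (fun x => x.lev = b ∧ x.pt < g) :=
          Finset.mem_filter.mpr ⟨hu, hub, hug⟩
        rw [hL0] at this
        exact absurd this (Finset.notMem_empty u)
      rcases (S.filter (fun x => x.lev = b ∧ g < x.pt)).eq_empty_or_nonempty with hR0 | hR1
      · have hRno : ∀ u ∈ S, u.lev = b → g < u.pt → False := by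
          intro u hu hub hug
          have : u ∈ S.filter (fun x => x.lev = b ∧ g < x.pt) :=
            Finset.mem_filter.mpr ⟨hu, hub, hug⟩
          rw [hR0] at this
          exact absurd this (Finset.notMem_empty u)
        exact ⟨0, 1, by decide, fun u hu hub hug => (hLno u hu hub hug).elim,
          fun u hu hub hug => (hRno u hu hub hug).elim⟩
      · obtain ⟨v, hv, hvm⟩ := Finset.exists_min_image _ (fun x : Lump => x.pt) hR1
        rw [Finset.mem_filter] at hv
        obtain ⟨e, f, hef, he⟩ := choose_one v.c0 v.c1 (hS.ne v hv.1)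
          (decide (v.lo ≤ hi + 1 ∧ lo ≤ v.hi + 1))
        refine ⟨e, f, hef, fun u hu hub hug => (hLno u hu hub hug).elim, ?_⟩
        intro v' hv' hvb' hvg' hvm'
        have hvv : v' = v := huniqR v hv.1 hv.2.1 hv.2.2
          (fun z hz hzb hzg => hvm z (Finset.mem_filter.mpr ⟨hz, hzb, hzg⟩)) v' hv' hvb' hvg' hvm'
        rw [hvv, he]
        simp only [decide_eq_true_eq]
    · obtain ⟨u, hu, hum⟩ := Finset.exists_max_image _ (fun x : Lump => x.pt) hL1
      rw [Finset.mem_filter] at hu
      rcases (S.filter (fun x => x.lev = b ∧ g < x.pt)).eq_empty_or_nonempty with hR0 | hR1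
      · have hRno : ∀ u ∈ S, u.lev = b → g < u.pt → False := by
          intro u hu hub hug
          have : u ∈ S.filter (fun x => x.lev = b ∧ g < x.pt) :=
            Finset.mem_filter.mpr ⟨hu, hub, hug⟩
          rw [hR0] at this
          exact absurd this (Finset.notMem_empty u)
        obtain ⟨e, f, hef, he⟩ := choose_one u.c0 u.c1 (hS.ne u hu.1)
          (decide (u.lo ≤ hi + 1 ∧ lo ≤ u.hi + 1))
        refine ⟨e, f, hef, ?_, fun v hv hvb hvg => (hRno v hv hvb hvg).elim⟩
        intro u' hu' hub' hug' hum'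
        have huu : u' = u := huniqL u hu.1 hu.2.1 hu.2.2
          (fun z hz hzb hzg => hum z (Finset.mem_filter.mpr ⟨hz, hzb, hzg⟩)) u' hu' hub' hug' hum'
        rw [huu, he]
        simp only [decide_eq_true_eq]
      · obtain ⟨v, hv, hvm⟩ := Finset.exists_min_image _ (fun x : Lump => x.pt) hR1
        rw [Finset.mem_filter] at hv
        have huv : inter u.c0 u.c1 v.c0 v.c1 = 1 := by
          apply hS.one u hu.1 v hv.1 (hu.2.2.trans hv.2.2) (hu.2.1.trans hv.2.1.symm)
          · intro ht
            have h1 := hside u hu.1 hu.2.1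
            have h2 := hside v hv.1 hv.2.1
            have h3 := hu.2.2
            have h4 := hv.2.2
            unfold Touch at ht
            omega
          · intro z hz hzb hzz
            rw [hu.2.1] at hzb
            rcases hside z hz hzb with h1 | h1
            · have := hum z (Finset.mem_filter.mpr ⟨hz, hzb, h1.1⟩)
              omega
            · have := hvm z (Finset.mem_filter.mpr ⟨hz, hzb, h1.1⟩)
              omega
        obtain ⟨e, f, hef, he1, he2⟩ := choose_two u.c0 u.c1 v.c0 v.c1 (hS.ne u hu.1) (hS.ne v hv.1)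
          huv (decide (u.lo ≤ hi + 1 ∧ lo ≤ u.hi + 1)) (decide (v.lo ≤ hi + 1 ∧ lo ≤ v.hi + 1))
        refine ⟨e, f, hef, ?_, ?_⟩
        · intro u' hu' hub' hug' hum'
          have huu : u' = u := huniqL u hu.1 hu.2.1 hu.2.2
            (fun z hz hzb hzg => hum z (Finset.mem_filter.mpr ⟨hz, hzb, hzg⟩)) u' hu' hub' hug' hum'
          rw [huu, he1]
          simp only [decide_eq_true_eq]
        · intro v' hv' hvb' hvg' hvm'
          have hvv : v' = v := huniqR v hv.1 hv.2.1 hv.2.2
            (fun z hz hzb hzg => hvm z (Finset.mem_filter.mpr ⟨hz, hzb, hzg⟩)) v' hv' hvb' hvg' hvm'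
          rw [hvv, he2]
          simp only [decide_eq_true_eq]
  let y : Lump := ⟨lo, hi, g, b, e, f⟩
  have hyS : y ∉ S := fun hy => hfree y hy rfl ⟨hg1, hg2⟩
  refine ⟨y, rfl, rfl, hyS, fun T hT => ?_⟩
  have hST : S ⊆ T := fun z hz => (hT z).mpr (Or.inr hz)
  have hyT : y ∈ T := (hT y).mpr (Or.inl rfl)
  -- relation between `y` and the lumps of `S`
  have hyx : ∀ x ∈ S, x.lev = b → Touch x y → inter e f x.c0 x.c1 = 0 := by
    intro x hx hxb ht
    have ht' : x.lo ≤ hi + 1 ∧ lo ≤ x.hi + 1 := ht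
    rcases hside x hx hxb with h1 | h1
    · rw [hL x hx hxb h1.1, if_pos ht']
      intro z hz hzb hzg
      by_contra hcon
      rw [not_le] at hcon
      have h2 : z ≠ x := by
        rintro rfl
        exact lt_irrefl _ hcon
      have h3 := hS.priv z hz x hx h2 (hzb.trans hxb.symm)
      have h4 := hside z hz hzb
      have h5 := hS.cov x hx
      have h6 : ¬ (x.lo ≤ z.pt ∧ z.pt ≤ x.hi) := h3
      have h7 : x.lo ≤ x.pt ∧ x.pt ≤ x.hi := h5
      omega
    · rw [hR x hx hxb h1.1, if_pos ht']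
      intro z hz hzb hzg
      by_contra hcon
      rw [not_le] at hcon
      have h2 : z ≠ x := by
        rintro rfl
        exact lt_irrefl _ hcon
      have h3 := hS.priv z hz x hx h2 (hzb.trans hxb.symm)
      have h4 := hside z hz hzb
      have h5 := hS.cov x hx
      have h6 : ¬ (x.lo ≤ z.pt ∧ z.pt ≤ x.hi) := h3
      have h7 : x.lo ≤ x.pt ∧ x.pt ≤ x.hi := h5
      omega
  refine ⟨?_, ?_, ?_, ?_, ?_, ?_, ?_⟩
  · intro x hx
    rcases (hT x).mp hx with rfl | hx
    · exact ⟨hg1, hg2⟩
    · exact hS.cov x hx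
  · intro x hx
    rcases (hT x).mp hx with rfl | hx
    · exact hef
    · exact hS.ne x hx
  · intro x hx
    rcases (hT x).mp hx with rfl | hx
    · exact hb1
    · exact hS.pos x hx
  · intro x hx z hz hne hl
    rcases (hT x).mp hx with rfl | hx
    · rcases (hT z).mp hz with rfl | hz
      · exact absurd rfl hne
      · exact hfree z hz hl.symm
    · rcases (hT z).mp hz with rfl | hz
      · exact hout x hx hl
      · exact hS.priv x hx z hz hne hl
  · intro x hx
    rcases (hT x).mp hx with rfl | hx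
    · change b ≤ cnt T b g
      have h1 : cnt S b g + 1 ≤ cnt T b g := by
        unfold cnt
        have h2 : insert y (S.filter (fun x => x.lev ≤ b ∧ x.Cov g)) ⊆
            T.filter (fun x => x.lev ≤ b ∧ x.Cov g) := by
          intro z hz
          rw [Finset.mem_insert, Finset.mem_filter] at hz
          rw [Finset.mem_filter]
          rcases hz with rfl | hz
          · exact ⟨hyT, le_rfl, hg1, hg2⟩
          · exact ⟨hST hz.1, hz.2⟩
        have h3 := Finset.card_le_card h2
        rw [Finset.card_insert_of_notMem (fun hy => hyS (Finset.mem_filter.mp hy).1)] at h3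
        exact h3
      omega
    · exact (hS.full x hx).trans (cnt_mono hST le_rfl _)
  · intro x hx z hz hne hl ht
    rcases (hT x).mp hx with rfl | hx
    · rcases (hT z).mp hz with rfl | hz
      · exact absurd rfl hne
      · exact hyx z hz hl.symm ht.symm
    · rcases (hT z).mp hz with rfl | hz
      · rw [inter_comm]
        exact hyx x hx hl ht
      · exact hS.col x hx z hz hne hl ht
  · intro x hx z hz hlt hl hnt hbtw
    rcases (hT x).mp hx with rfl | hx
    · rcases (hT z).mp hz with rfl | hz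
      · exact absurd hlt (lt_irrefl _)
      · change inter e f z.c0 z.c1 = 1
        rw [hR z hz hl.symm hlt, if_neg (show ¬ (z.lo ≤ hi + 1 ∧ lo ≤ z.hi + 1) from
          fun h => hnt ⟨h.2, h.1⟩)]
        intro w hw hwb hwg
        by_contra hcon
        rw [not_le] at hcon
        exact hbtw w (hST hw) hwb ⟨hwg, hcon⟩
    · rcases (hT z).mp hz with rfl | hz
      · rw [inter_comm]
        change inter e f x.c0 x.c1 = 1
        rw [hL x hx hl hlt, if_neg (show ¬ (x.lo ≤ hi + 1 ∧ lo ≤ x.hi + 1) from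
          fun h => hnt ⟨h.1, h.2⟩)]
        intro w hw hwb hwg
        by_contra hcon
        rw [not_le] at hcon
        exact hbtw w (hST hw) (hwb.trans hl.symm) ⟨hcon, hwg⟩
      · exact hS.one x hx z hz hlt hl hnt fun w hw hwl => hbtw w (hST hw) hwl

end Pool.Agent.Sig
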