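import Pool.Agent.Sig.Algo

/-!
# The algorithm is correct and uses at most `5/2 (χ + (⌊σ⌋ + 1)²)` colours
-/

namespace Pool.Agent.Sig

open scoped ENNReal

variable {σ : ℝ} {I : List (ℝ × ℝ)}

theorem inter_zero {a b c d : Fin 5} (h : inter a b c d = 0) : a ≠ c ∧ a ≠ d ∧ b ≠ c ∧ b ≠ d := by
  unfold inter at h
  refine ⟨?_, ?_, ?_, ?_⟩
  · intro h1
    rw [if_pos h1] at h
    omega
  · intro h1
    rw [if_pos h1] at h
    omega
  · intro h1
    rw [if_pos h1] at h
    omega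
  · intro h1
    rw [if_pos h1] at h
    omega

theorem colr_ne_of_lev {a b : Lump × Bool} (h : a.1.lev ≠ b.1.lev) : colr a ≠ colr b := by
  unfold colr
  have h1 := (if a.2 then a.1.c1 else a.1.c0).isLt
  have h2 := (if b.2 then b.1.c1 else b.1.c0).isLt
  omega

theorem colr_ne {U : Finset (Lump × Bool)} (hU : Inv U) {a b : Lump × Bool} (ha : a ∈ U) (hb : b ∈ U)
    (hab : a ≠ b) (ht : Touch a.1 b.1) : colr a ≠ colr b := by
  obtain ⟨x, s⟩ := a
  obtain ⟨y, t⟩ := b
  have hx : x ∈ lumps U := mem_lumps.mpr ⟨s, ha⟩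
  have hy : y ∈ lumps U := mem_lumps.mpr ⟨t, hb⟩
  by_cases hxy : x = y
  · subst hxy
    have hst : s ≠ t := fun h => hab (by rw [h])
    have hc := hU.good.ne x hx
    have hc' : x.c0.val ≠ x.c1.val := fun h => hc (Fin.ext h)
    unfold colr
    cases s <;> cases t
    · exact absurd rfl hst
    · simpa using hc'
    · simpa using hc'.symm
    · exact absurd rfl hst
  · by_cases hl : x.lev = y.lev
    · have h1 := inter_zero (hU.good.col x hx y hy hxy hl ht)
      have e1 : x.c0.val ≠ y.c0.val := fun h => h1.1 (Fin.ext h)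
      have e2 : x.c0.val ≠ y.c1.val := fun h => h1.2.1 (Fin.ext h)
      have e3 : x.c1.val ≠ y.c0.val := fun h => h1.2.2.1 (Fin.ext h)
      have e4 : x.c1.val ≠ y.c1.val := fun h => h1.2.2.2 (Fin.ext h)
      unfold colr
      cases s <;> cases t <;> simp [hl] <;> assumption
    · exact colr_ne_of_lev hl

/-- Intersecting intervals have ranges that touch. -/
theorem touch_of_inter (hI : IsInstance σ I) {i j : Fin I.length}
    (h : (Set.Icc (I.get i).1 (I.get i).2 ∩ Set.Icc (I.get j).1 (I.get j).2).Nonempty) :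
    Touch (asg I i).1 (asg I j).1 := by
  obtain ⟨x, ⟨h1, h2⟩, h3, h4⟩ := h
  obtain ⟨-, hil, hih⟩ := asg_spec hI i
  obtain ⟨-, hjl, hjh⟩ := asg_spec hI j
  unfold Touch
  rw [hil, hih, hjl, hjh]
  have key : ∀ u v : ℝ, u ≤ v → ⌈u⌉ ≤ ⌊v⌋ + 1 := by
    intro u v huv
    rw [Int.ceil_le]
    push_cast
    exact huv.trans (Int.lt_floor_add_one v).le
  exact ⟨key _ _ (h1.trans h4), key _ _ (h3.trans h2)⟩

theorem isOnline_algo (σ : ℝ) : IsOnline σ algo := by
  intro I hI i j hij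
  rw [colour_algo, colour_algo]
  exact colr_ne (inv_st hI) (asg_mem_st i) (asg_mem_st j) (fun h => hij.1 (asg_inj hI h))
    (touch_of_inter hI hij.2)

/-- The lengths of the ranges. -/
theorem length_le (hI : IsInstance σ I) {x : Lump} (hx : x ∈ lumps (st I)) :
    x.hi - x.lo ≤ (⌊σ⌋₊ : ℤ) ∧ 0 ≤ σ := by
  obtain ⟨s, hs⟩ := mem_lumps.mp hx
  obtain ⟨i, hi⟩ := mem_st hs
  obtain ⟨-, h1, h2⟩ := asg_spec hI i
  rw [hi] at h1 h2
  simp only at h1 h2
  have h3 := hI _ (List.get_mem I i)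
  have h0 : 0 ≤ σ := by linarith [h3.1, h3.2]
  refine ⟨?_, h0⟩
  rw [Int.natCast_floor_eq_floor h0, Int.le_floor, h1, h2]
  push_cast
  have h4 := Int.floor_le (I.get i).2
  have h5 := Int.le_ceil (I.get i).1
  linarith [h3.2]

open Classical in
/-- At most `χ` halves contain an integer. -/
theorem card_halves (hI : IsInstance σ I) {χ : ℕ} (hχ : (interGraph I).Colorable χ) (g : ℤ) :
    ((st I).filter (fun a => a.1.Cov g)).card ≤ χ := by
  set s : Finset (Fin I.length) :=
    Finset.univ.filter (fun i => (I.get i).1 ≤ (g : ℝ) ∧ (g : ℝ) ≤ (I.get i).2) with hs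
  have h1 : (st I).filter (fun a => a.1.Cov g) ⊆ s.image (asg I) := by
    intro a ha
    rw [Finset.mem_filter] at ha
    obtain ⟨i, hi⟩ := mem_st ha.1
    rw [Finset.mem_image]
    refine ⟨i, ?_, hi⟩
    rw [hs, Finset.mem_filter]
    obtain ⟨-, h2, h3⟩ := asg_spec hI i
    have h4 := ha.2
    rw [← hi] at h4
    unfold Lump.Cov at h4
    rw [h2, h3, Int.ceil_le, Int.le_floor] at h4
    exact ⟨Finset.mem_univ i, h4⟩
  have hcl : (interGraph I).IsClique (s : Set (Fin I.length)) := by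
    intro i hi j hj hne
    rw [Finset.mem_coe, hs, Finset.mem_filter] at hi hj
    exact ⟨hne, g, hi.2, hj.2⟩
  exact (Finset.card_le_card h1).trans (Finset.card_image_le.trans (hcl.card_le_of_colorable hχ))

open Classical in
/-- At most `(⌊σ⌋ + 1)²` half-open lumps contain an integer. -/
theorem card_open (hI : IsInstance σ I) (g : ℤ) :
    ((lumps (st I)).filter (fun x => x.Cov g ∧ (x, true) ∉ st I)).card ≤ (⌊σ⌋₊ + 1) ^ 2 := by
  have h1 : ((lumps (st I)).filter (fun x => x.Cov g ∧ (x, true) ∉ st I)).card ≤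
      (Finset.range (⌊σ⌋₊ + 1) ×ˢ Finset.range (⌊σ⌋₊ + 1)).card := by
    refine Finset.card_le_card_of_injOn (fun x => ((g - x.lo).toNat, (x.hi - g).toNat)) ?_ ?_
    · intro x hx
      rw [Finset.mem_coe, Finset.mem_filter] at hx
      obtain ⟨hx1, hx2, -⟩ := hx
      have h2 := (length_le hI hx1).1
      unfold Lump.Cov at hx2
      rw [Finset.mem_coe, Finset.mem_product, Finset.mem_range, Finset.mem_range]
      simp only
      omega
    · intro x hx y hy hxy
      rw [Finset.mem_coe, Finset.mem_filter] at hx hy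
      obtain ⟨hx1, hx2, hx3⟩ := hx
      obtain ⟨hy1, hy2, hy3⟩ := hy
      have hinv := inv_st hI
      simp only [Prod.mk.injEq] at hxy
      unfold Lump.Cov at hx2 hy2
      exact hinv.half x y (hinv.mem_lumps_iff.mp hx1) hx3 (hinv.mem_lumps_iff.mp hy1) hy3
        (by omega) (by omega)
  rw [Finset.card_product, Finset.card_range] at h1
  rw [pow_two]
  exact h1

open Classical in
/-- The number of lumps over an integer. -/
theorem card_lumps (hI : IsInstance σ I) {χ : ℕ} (hχ : (interGraph I).Colorable χ) (g : ℤ) :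
    2 * ((lumps (st I)).filter (fun x => x.Cov g)).card ≤ χ + (⌊σ⌋₊ + 1) ^ 2 := by
  have hinv := inv_st hI
  set L := (lumps (st I)).filter (fun x => x.Cov g) with hL
  have h1 : L.card = (L.filter (fun x => (x, true) ∈ st I)).card +
      (L.filter (fun x => (x, true) ∉ st I)).card :=
    (Finset.card_filter_add_card_filter_not _).symm
  have h2 : (L.filter (fun x => (x, true) ∉ st I)).card ≤ (⌊σ⌋₊ + 1) ^ 2 := by
    rw [hL, Finset.filter_filter]
    exact card_open hI g
  have h3 : (L.image (fun x => (x, false)) ∪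
      (L.filter (fun x => (x, true) ∈ st I)).image (fun x => (x, true))).card ≤ χ := by
    refine (Finset.card_le_card ?_).trans (card_halves hI hχ g)
    intro a ha
    rw [Finset.mem_union, Finset.mem_image, Finset.mem_image] at ha
    rw [Finset.mem_filter]
    rcases ha with ⟨x, hx, rfl⟩ | ⟨x, hx, rfl⟩
    · rw [hL, Finset.mem_filter] at hx
      exact ⟨hinv.mem_lumps_iff.mp hx.1, hx.2⟩
    · rw [Finset.mem_filter, hL, Finset.mem_filter] at hx
      exact ⟨hx.2, hx.1.2⟩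
  rw [Finset.card_union_of_disjoint, Finset.card_image_of_injective,
    Finset.card_image_of_injective] at h3
  · omega
  · intro x y hxy
    exact (Prod.mk.inj hxy).1
  · intro x y hxy
    exact (Prod.mk.inj hxy).1
  · rw [Finset.disjoint_left]
    intro a ha hb
    rw [Finset.mem_image] at ha hb
    obtain ⟨x, -, rfl⟩ := ha
    obtain ⟨y, -, hy⟩ := hb
    simp at hy

theorem lev_le (hI : IsInstance σ I) {χ : ℕ} (hχ : (interGraph I).Colorable χ) {x : Lump}
    (hx : x ∈ lumps (st I)) : 2 * x.lev ≤ χ + (⌊σ⌋₊ + 1) ^ 2 := by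
  classical
  have h1 := (inv_st hI).good.full x hx
  have h2 := card_lumps hI hχ x.pt
  have h3 : cnt (lumps (st I)) x.lev x.pt ≤ ((lumps (st I)).filter (fun y => y.Cov x.pt)).card := by
    unfold cnt
    refine Finset.card_le_card fun y hy => ?_
    rw [Finset.mem_filter] at hy ⊢
    exact ⟨hy.1, hy.2.2⟩
  omega

/-- **The number of colours.** -/
theorem cost_le (hI : IsInstance σ I) {χ : ℕ} (hχ : (interGraph I).Colorable χ) :
    2 * cost algo I ≤ 5 * (χ + (⌊σ⌋₊ + 1) ^ 2) := by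
  classical
  set B := (χ + (⌊σ⌋₊ + 1) ^ 2) / 2 with hB
  have h1 : Finset.univ.image (colour algo I) ⊆ Finset.Ico 5 (5 * (B + 1)) := by
    intro c hc
    rw [Finset.mem_image] at hc
    obtain ⟨i, -, rfl⟩ := hc
    rw [colour_algo]
    have h2 : (asg I i).1 ∈ lumps (st I) := mem_lumps.mpr ⟨(asg I i).2, asg_mem_st i⟩
    have h3 := lev_le hI hχ h2
    have h4 := (inv_st hI).good.pos _ h2
    have h5 := (if (asg I i).2 then (asg I i).1.c1 else (asg I i).1.c0).isLt
    rw [Finset.mem_Ico]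
    unfold colr
    omega
  have h2 := Finset.card_le_card h1
  rw [Nat.card_Ico] at h2
  change cost algo I ≤ _ at h2
  omega

theorem worst_le (σ : ℝ) (χ : ℕ) :
    2 * worst σ algo χ ≤ 5 * (χ + ((⌊σ⌋₊ : ℕ∞) + 1) ^ 2) := by
  unfold worst
  rw [ENat.mul_iSup]
  refine iSup_le fun I => ?_
  rw [ENat.mul_iSup]
  refine iSup_le fun hI => ?_
  have h1 := cost_le hI.1 (SimpleGraph.chromaticNumber_le_iff_colorable.mp hI.2)
  exact_mod_cast h1

theorem isCompetitive_algo (σ : ℝ) : IsCompetitive σ algo (5 / 2) := by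
  unfold IsCompetitive
  set C : ℝ≥0∞ := 5 * ((⌊σ⌋₊ : ℝ≥0∞) + 1) ^ 2 / 2 with hC
  have hCtop : C ≠ ⊤ := by
    rw [hC]
    refine ENNReal.div_ne_top ?_ (by norm_num)
    refine ENNReal.mul_ne_top (by norm_num) (ENNReal.pow_ne_top ?_)
    exact ENNReal.add_ne_top.mpr ⟨ENNReal.natCast_ne_top _, ENNReal.one_ne_top⟩
  have hle : ∀ χ : ℕ, 1 ≤ χ → (worst σ algo χ : ℝ≥0∞) / χ ≤ 5 / 2 + C / χ := by
    intro χ hχ
    have h1 := worst_le σ χ
    have h2 : (2 : ℝ≥0∞) * (worst σ algo χ : ℝ≥0∞) ≤ 5 * (χ + ((⌊σ⌋₊ : ℝ≥0∞) + 1) ^ 2) := by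
      have h3 := ENat.toENNReal_mono h1
      simpa using h3
    have h4 : (worst σ algo χ : ℝ≥0∞) ≤ 5 / 2 * χ + C := by
      have h5 : (worst σ algo χ : ℝ≥0∞) ≤ 5 * (χ + ((⌊σ⌋₊ : ℝ≥0∞) + 1) ^ 2) / 2 := by
        rw [ENNReal.le_div_iff_mul_le (Or.inl (by norm_num)) (Or.inl (by norm_num)), mul_comm]
        exact h2
      refine h5.trans (le_of_eq ?_)
      rw [mul_add, ENNReal.add_div, hC]
      congr 1
      rw [ENNReal.mul_div_right_comm]
    have hχ0 : (χ : ℝ≥0∞) ≠ 0 := by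
      rw [Ne, Nat.cast_eq_zero]
      omega
    calc (worst σ algo χ : ℝ≥0∞) / χ ≤ (5 / 2 * χ + C) / χ := by gcongr
      _ = 5 / 2 + C / χ := by
        rw [ENNReal.add_div, ENNReal.mul_div_cancel_right hχ0 (ENNReal.natCast_ne_top χ)]
  have hlim : Filter.Tendsto (fun χ : ℕ => 5 / 2 + C / (χ : ℝ≥0∞)) Filter.atTop (nhds (5 / 2)) := by
    have h1 : Filter.Tendsto (fun χ : ℕ => C / (χ : ℝ≥0∞)) Filter.atTop (nhds (C / ⊤)) :=
      ENNReal.Tendsto.const_div ENNReal.tendsto_nat_nhds_top (Or.inr hCtop)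
    rw [ENNReal.div_top] at h1
    have h2 := h1.const_add (5 / 2 : ℝ≥0∞)
    rwa [add_zero] at h2
  rw [← hlim.limsup_eq]
  refine Filter.limsup_le_limsup ?_
  filter_upwards [Filter.eventually_ge_atTop 1] with χ hχ
  exact hle χ hχ

end Pool.Agent.Sig
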